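import Pool.Agent.T2h16.TG.Def2

/-!
# The Bloch-Kato Selmer groups of `V_2 A`

`A / K`, `K = ℚ(i)`, is the twist of `E ⊗ ℤ[ζ]` by the character `a` of the absolute Galois group of
`K`, see `Pool.Agent.Y715.St`.
-/

set_option autoImplicit false

namespace Pool.Agent.T3h73.TG.BKDef

open Pool.Agent.Y715.St Q283.GA.St T2h16.TG.Def2
open scoped Classical

section

variable {k : ℕ} {i₀ : QBar}

/-- The elements of `V_2 A`: the sequences of points `x n` of `A` of `2`-power order with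
`2 x (n + 1) = x n`. -/
def IsV (i₀ : QBar) (x : ℕ → ZMod (2 ^ k) → Pts QBar) : Prop :=
  ∀ n, InA k i₀ (x n) ∧ 2 • x (n + 1) = x n ∧ ∃ m : ℕ, 2 ^ m • x n = 0

/-- The continuous cocycles with values in `V_2 A`. -/
def VCocycle (a : GalK i₀ → ZMod (2 ^ k)) (c : GalK i₀ → ℕ → ZMod (2 ^ k) → Pts QBar) : Prop :=
  (∀ σ, IsV i₀ (c σ)) ∧ ∀ n, IsCocycle a fun σ => c σ n

/-- The coboundaries with values in `V_2 A`. -/
def VCoboundary (a : GalK i₀ → ZMod (2 ^ k)) (c : GalK i₀ → ℕ → ZMod (2 ^ k) → Pts QBar) : Prop :=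
  ∃ x : ℕ → ZMod (2 ^ k) → Pts QBar, IsV i₀ x ∧ ∀ σ n, c σ n = twist (homK σ) (a σ) (x n) - x n

/-- At each finite place `v` of `K` (given by the embedding `ι`) the restriction of the class of `c` is
in the image of `A(K_v) ⊗ ℚ_2`: there are points `R n` with `2 R (n + 1) = R n` and
`c(τ) n = τ (R n) - R n`. -/
def Kummer (a : GalK i₀ → ZMod (2 ^ k)) (c : GalK i₀ → ℕ → ZMod (2 ^ k) → Pts QBar) : Prop :=
  ∀ (p : ℕ) [Fact p.Prime] (ι : QBar →ₐ[ℚ] PadicAlgCl p),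
    ∃ R : ℕ → ZMod (2 ^ k) → Pts (PadicAlgCl p),
      (∀ n, InA k (ι i₀) (R n) ∧ 2 • R (n + 1) = R n) ∧
      ∀ n τ σ, Restricts ι τ σ → twist ι 0 (c σ n) = twist (homL τ) (a σ) (R n) - R n

/-- The Bloch-Kato Selmer group `H ^ 1_f (K, V_2 A)` is zero. -/
def BKZero (a : GalK i₀ → ZMod (2 ^ k)) : Prop :=
  ∀ c : GalK i₀ → ℕ → ZMod (2 ^ k) → Pts QBar, VCocycle a c → Kummer a c → VCoboundary a c

end

/-- For the product `χ` of the characters of `x` (in any numbering) and the corresponding twist `A`: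
the group `A(K)` has order `2` and `H ^ 1_f (K, V_2 A)` is zero. -/
def BothZero (k : ℕ) (x : Fam) : Prop :=
  ∀ (σ : Fin (set x).card ≃ set x) (ζ : ℂ), ζ ^ 2 ^ (k - 2) = Complex.I →
    ∀ i₀ : QBar, i₀ ^ 2 = -1 → ∀ a : GalK i₀ → ZMod (2 ^ k),
      Corresponds ζ (chars x σ) a → (pointsK a).ncard = 2 ∧ BKZero a

end Pool.Agent.T3h73.TG.BKDef
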