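import Pool.Agent.T3h73.TG.BKDef

/-!
# The Bloch-Kato Selmer groups for all the products of characters modulo the same primes
-/

set_option autoImplicit false

namespace Pool.Agent.T3h73.TG.BKDef3

open T2h16.TG.Def2 Pool.Agent.T3h73.TG.BKDef

/-- The property `BothZero` for every product of characters of exact order `2 ^ l`, `3 ≤ l ≤ k`, modulo
the same primes (the elements of `set x`), for `x` in the family for `k`; among them are the product of
the characters of `x` and all its powers of order at least `8`. (For `l > k` only if all these primes
have norm `1` modulo `2 ^ (l + 2)`, this is part of `Mem l y`.) -/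
def ZeroAll (x : Fam) : Prop :=
  ∀ (l : ℕ) (y : Fam), 3 ≤ l → set y = set x → Mem l y → BothZero l y

end Pool.Agent.T3h73.TG.BKDef3
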