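import Pool.Agent.T3h73.TG.BK
import Pool.Agent.T3h73.TG.BKDef3
import Pool.Agent.T2h16.TG.Tower

/-! # Densities -/

set_option autoImplicit false
set_option linter.all false

open Filter Topology

namespace Pool.Agent.T3h73.TG.BKFin

open T2h16.TG T2h16.TG.Def3 Pool.Agent.T3h73.TG.BKDef3

theorem convergent (k : ℕ) (hk : 3 ≤ k) : Def2.Convergent k := by
  intro s hs
  refine ((all_MAIN2 k hk).1 s hs).congr fun x => ?_
  by_cases h : Def.Mem k x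
  · rw [if_pos h, if_pos ((EQ2.t_EQ2.1 k x).2 h), EQ2.t_EQ2.2.1]
  · rw [if_neg h, if_neg fun h1 => h ((EQ2.t_EQ2.1 k x).1 h1)]

theorem divergent (k : ℕ) (hk : 3 ≤ k) : Def2.Divergent k :=
  (all_MAIN2 k hk).2.1.congr fun s => (EQ2.t_EQ2.2.2.2 k _ s).symm

theorem zero_all {x : Def2.Fam} (h : NiceAll x) : ZeroAll x := fun l y hl hs hy =>
  BK.both_of l y (h l y hl hs hy)

theorem atLeast_zeroAll (k : ℕ) (hk : 3 ≤ k) (ε : ℝ) (hε : 0 < ε) :
    Def2.AtLeast k ZeroAll (1 / 2 * Def2.kappa - ε) := by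
  have hev : ∀ᶠ s : ℝ in 𝓝[>] 1, 1 < s := self_mem_nhdsWithin
  filter_upwards [Tower.atLeast_niceAll k hk ε hε, hev] with s h1 h2
  refine h1.trans ?_
  rw [EQ2.t_EQ2.2.2.2, EQ2.t_EQ2.2.2.2]
  exact Tower.mono k (all_MAIN2 k hk).1 _ _ (fun x hx => zero_all hx) s h2

end Pool.Agent.T3h73.TG.BKFin
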